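import Pool.Agent.Helper72.AI.Stmts2

set_option autoImplicit false

/-! Packet C_basic of MP_870acd_co. -/

namespace Helper52AI

open AffInc

/-- the placement for a given `w` -/
lemma good_of_value (h1 : AffInc.C_elem) (n w : Fin 3 → ℝ) (s V : ℝ) (hn : ∀ i, 0 ≤ n i)
    (hw : ∀ i, 0 ≤ w i) (hws : ∀ i, w i ≤ s) (hs : 0 < s) (hs1 : s ≤ 1) (hsL : s ≤ ∑ i, n i)
    (hV : V * ∑ k, n k ≤
      n 0 * (((1 + s) * (1 - eps n 1 * (s - w 1)) / (1 + w 1))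
        * ((1 + s) * (1 - eps n 2 * (s - w 2)) / (1 + w 2)))
      + n 1 * (((1 + s) * (1 - eps n 0 * (s - w 0)) / (1 + w 0))
        * ((1 + s) * (1 - eps n 2 * (s - w 2)) / (1 + w 2)))
      + n 2 * (((1 + s) * (1 - eps n 0 * (s - w 0)) / (1 + w 0))
        * ((1 + s) * (1 - eps n 1 * (s - w 1)) / (1 + w 1)))) :
    GoodPl n s w V := by
  have hL : 0 < ∑ i, n i := lt_of_lt_of_le hs hsL
  obtain ⟨a1, a2, a3, -, -, -, -⟩ := h1 n hn hL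
  have hle : ∀ i, n i ≤ ∑ k, n k := fun i =>
    Finset.single_le_sum (fun j _ => hn j) (Finset.mem_univ i)
  obtain ⟨L, hLe⟩ : ∃ L, L = ∑ k, n k := ⟨_, rfl⟩
  have hes : ∀ i, eps n i * (1 + s) ≤ 1 := fun i =>
    (mul_le_mul_of_nonneg_left (by linarith) (a1 i)).trans (a2 i)
  have hb : ∀ i, 0 ≤ 1 - eps n i * (s - w i) := by
    intro i
    have : eps n i * (s - w i) ≤ eps n i * (1 + s) :=
      mul_le_mul_of_nonneg_left (by linarith [hw i]) (a1 i)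
    linarith [hes i]
  have hφ0 : ∀ i, 0 ≤ (1 + s) * (1 - eps n i * (s - w i)) / (1 + w i) := fun i =>
    div_nonneg (mul_nonneg (by linarith) (hb i)) (by linarith [hw i])
  have hφ1 : ∀ i, (1 + s) * (1 - eps n i * (s - w i)) / (1 + w i) ≤ 1 + s := by
    intro i
    rw [div_le_iff₀ (by linarith [hw i])]
    have : 0 ≤ eps n i * (s - w i) := mul_nonneg (a1 i) (by linarith [hws i])
    nlinarith [hw i]
  refine ⟨fun i => (s - w i) / (1 + s), fun i => (1 + s) * (1 - eps n i * (s - w i)) / (1 + w i),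
    ?_, ?_, hφ0, ?_, ?_, hV⟩
  · intro i
    exact ⟨div_nonneg (by linarith [hws i]) (by linarith), le_refl _⟩
  · intro i j _
    show (s - w i) / (1 + s) + (s - w j) / (1 + s) ≤ 1
    rw [← add_div, div_le_one (by linarith)]
    linarith [hw i, hw j]
  · intro i j _
    show (1 + ∑ k, n k - n i) * ((1 - (s - w i) / (1 + s)) *
      ((1 + s) * (1 - eps n i * (s - w i)) / (1 + w i))) + (1 - n i) * ((s - w i) / (1 + s) *
      ((1 + s) * (1 - eps n j * (s - w j)) / (1 + w j))) ≤ 1 + ∑ k, n k - n i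
    rw [← hLe]
    have hN : 0 < 1 + L - n i := by rw [hLe]; linarith [hle i]
    have e1 : (1 - (s - w i) / (1 + s)) * ((1 + s) * (1 - eps n i * (s - w i)) / (1 + w i))
        = 1 - eps n i * (s - w i) := by
      have := hw i
      have : (1 + w i) ≠ 0 := by linarith
      have : (1 + s) ≠ 0 := by linarith
      field_simp
      ring
    rw [e1]
    have e2 : 0 ≤ (s - w i) / (1 + s) * ((1 + s) * (1 - eps n j * (s - w j)) / (1 + w j)) :=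
      mul_nonneg (div_nonneg (by linarith [hws i]) (by linarith)) (hφ0 j)
    have e3 : (s - w i) / (1 + s) * ((1 + s) * (1 - eps n j * (s - w j)) / (1 + w j)) ≤ s - w i := by
      calc _ ≤ (s - w i) / (1 + s) * (1 + s) :=
            mul_le_mul_of_nonneg_left (hφ1 j) (div_nonneg (by linarith [hws i]) (by linarith))
        _ = s - w i := div_mul_cancel₀ _ (by linarith)
    obtain ⟨R, hR⟩ : ∃ R, R = (s - w i) / (1 + s) * ((1 + s) * (1 - eps n j * (s - w j)) / (1 + w j)) :=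
      ⟨_, rfl⟩
    rw [← hR] at e2 e3 ⊢
    have e4 : 1 - n i ≤ eps n i * (1 + L - n i) := by rw [hLe]; exact a3 i
    have e5 : (1 - n i) * R ≤ eps n i * (1 + L - n i) * R := mul_le_mul_of_nonneg_right e4 e2
    have e6 : eps n i * (1 + L - n i) * R ≤ eps n i * (1 + L - n i) * (s - w i) :=
      mul_le_mul_of_nonneg_left e3 (mul_nonneg (a1 i) hN.le)
    linarith
  · intro i j _
    show (1 - n j) * ((1 + s) * (1 - eps n i * (s - w i)) / (1 + w i)) ≤ 1 + ∑ k, n k - n j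
    have hN : 0 < 1 + ∑ k, n k - n j := by linarith [hle j]
    calc (1 - n j) * ((1 + s) * (1 - eps n i * (s - w i)) / (1 + w i))
        ≤ (eps n j * (1 + ∑ k, n k - n j)) * ((1 + s) * (1 - eps n i * (s - w i)) / (1 + w i)) :=
          mul_le_mul_of_nonneg_right (a3 j) (hφ0 i)
      _ ≤ (eps n j * (1 + ∑ k, n k - n j)) * (1 + s) :=
          mul_le_mul_of_nonneg_left (hφ1 i) (mul_nonneg (a1 j) hN.le)
      _ = (eps n j * (1 + s)) * (1 + ∑ k, n k - n j) := by ring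
      _ ≤ 1 * (1 + ∑ k, n k - n j) := mul_le_mul_of_nonneg_right (hes j) hN.le
      _ = _ := one_mul _

/-- the purely algebraic averaging inequality -/
lemma avg_ineq (n0 n1 n2 e0 e1 e2 t0 t1 t2 s : ℝ) (hn0 : 0 ≤ n0) (hn1 : 0 ≤ n1) (hn2 : 0 ≤ n2)
    (he0 : 0 ≤ e0) (he1 : 0 ≤ e1) (he2 : 0 ≤ e2) (g0 : 0 ≤ 1 - e0 * (1 + s))
    (g1 : 0 ≤ 1 - e1 * (1 + s)) (g2 : 0 ≤ 1 - e2 * (1 + s))
    (ht0 : 0 ≤ t0) (ht1 : 0 ≤ t1) (ht2 : 0 ≤ t2) (hs : s = t0 + t1 + t2) (hs0 : 0 < s)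
    (Fn : ℝ → ℝ → ℝ → ℝ)
    (hF : ∀ a b c, Fn a b c = n0 * ((1 + s) * (1 - e1 * (s - b)) / (1 + b)
        * ((1 + s) * (1 - e2 * (s - c)) / (1 + c)))
      + n1 * ((1 + s) * (1 - e0 * (s - a)) / (1 + a) * ((1 + s) * (1 - e2 * (s - c)) / (1 + c)))
      + n2 * ((1 + s) * (1 - e0 * (s - a)) / (1 + a) * ((1 + s) * (1 - e1 * (s - b)) / (1 + b)))) :
    6 * ((1 + s) / (1 + s / 3)) ^ 2 * (n0 * ((1 - 2 / 3 * s * e1) * (1 - 2 / 3 * s * e2))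
      + n1 * ((1 - 2 / 3 * s * e0) * (1 - 2 / 3 * s * e2))
      + n2 * ((1 - 2 / 3 * s * e0) * (1 - 2 / 3 * s * e1))) ≤
    Fn t0 t1 t2 + Fn t0 t2 t1 + Fn t1 t0 t2 + Fn t1 t2 t0 + Fn t2 t0 t1 + Fn t2 t1 t0 := by
  obtain ⟨x0, hx0⟩ : ∃ x, x = 1 / (1 + t0) := ⟨_, rfl⟩
  obtain ⟨x1, hx1⟩ : ∃ x, x = 1 / (1 + t1) := ⟨_, rfl⟩
  obtain ⟨x2, hx2⟩ : ∃ x, x = 1 / (1 + t2) := ⟨_, rfl⟩
  obtain ⟨x, hx⟩ : ∃ x, x = 1 / (1 + s / 3) := ⟨_, rfl⟩
  have px : 0 < x := by rw [hx]; positivity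
  have key : ∀ e u : ℝ, 0 ≤ u → (1 + s) * (1 - e * (s - u)) / (1 + u)
      = (1 + s) * (e + (1 - e * (1 + s)) * (1 / (1 + u))) := by
    intro e u hu
    have : (1 + u) ≠ 0 := by linarith
    field_simp
    ring
  have F1 : ∀ a b c, 0 ≤ a → 0 ≤ b → 0 ≤ c → Fn a b c = (1 + s) ^ 2 * (n0 *
      ((e1 + (1 - e1 * (1 + s)) * (1 / (1 + b))) * (e2 + (1 - e2 * (1 + s)) * (1 / (1 + c))))
      + n1 * ((e0 + (1 - e0 * (1 + s)) * (1 / (1 + a))) * (e2 + (1 - e2 * (1 + s)) * (1 / (1 + c))))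
      + n2 * ((e0 + (1 - e0 * (1 + s)) * (1 / (1 + a))) * (e1 + (1 - e1 * (1 + s)) * (1 / (1 + b))))) := by
    intro a b c ha hb hc
    rw [hF, key _ _ ha, key _ _ hb, key _ _ hc]
    ring
  have hP : (1 + t0) * (1 + t1) * (1 + t2) ≤ (1 + s / 3) ^ 3 := by
    have amgm : ∀ a b c : ℝ, 0 ≤ a → 0 ≤ b → 0 ≤ c → a * b * c ≤ ((a + b + c) / 3) ^ 3 := by
      intro a b c ha hb hc
      nlinarith [mul_nonneg ha (sq_nonneg (b - c)), mul_nonneg hb (sq_nonneg (a - c)),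
        mul_nonneg hc (sq_nonneg (a - b)), mul_nonneg (add_nonneg (add_nonneg ha hb) hc)
        (add_nonneg (add_nonneg (sq_nonneg (a - b)) (sq_nonneg (b - c))) (sq_nonneg (a - c)))]
    have := amgm (1 + t0) (1 + t1) (1 + t2) (by linarith) (by linarith) (by linarith)
    rw [show (1 + t0 + (1 + t1) + (1 + t2)) / 3 = 1 + s / 3 by rw [hs]; ring] at this
    exact this
  have hX : 3 * x ≤ x0 + x1 + x2 := by
    rw [hx, hx0, hx1, hx2]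
    have e : 1 / (1 + t0) + 1 / (1 + t1) + 1 / (1 + t2)
        = ((1 + t1) * (1 + t2) + (1 + t0) * (1 + t2) + (1 + t0) * (1 + t1))
          / ((1 + t0) * (1 + t1) * (1 + t2)) := by
      field_simp
    rw [e, mul_one_div, div_le_div_iff₀ (by positivity) (by positivity), hs]
    nlinarith [mul_nonneg (by linarith : 0 ≤ 1 + t0) (sq_nonneg (t1 - t2)),
      mul_nonneg (by linarith : 0 ≤ 1 + t1) (sq_nonneg (t0 - t2)),
      mul_nonneg (by linarith : 0 ≤ 1 + t2) (sq_nonneg (t0 - t1))]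
  have hY : 3 * x ^ 2 ≤ x0 * x1 + x0 * x2 + x1 * x2 := by
    have e : x0 * x1 + x0 * x2 + x1 * x2 = 3 * (1 + s / 3) / ((1 + t0) * (1 + t1) * (1 + t2)) := by
      rw [hx0, hx1, hx2, hs]
      field_simp
      ring
    rw [e, hx, div_pow, one_pow, mul_one_div, div_le_div_iff₀ (by positivity) (by positivity)]
    nlinarith [hP]
  rw [F1 t0 t1 t2 ht0 ht1 ht2, F1 t0 t2 t1 ht0 ht2 ht1, F1 t1 t0 t2 ht1 ht0 ht2,
    F1 t1 t2 t0 ht1 ht2 ht0, F1 t2 t0 t1 ht2 ht0 ht1, F1 t2 t1 t0 ht2 ht1 ht0,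
    ← hx0, ← hx1, ← hx2]
  have hmul : ∀ e : ℝ, 1 - 2 / 3 * s * e = (1 + s / 3) * (e + (1 - e * (1 + s)) * x) := by
    intro e
    rw [hx]
    field_simp
    ring
  have e1x : 6 * ((1 + s) / (1 + s / 3)) ^ 2 * (n0 * ((1 - 2 / 3 * s * e1) * (1 - 2 / 3 * s * e2))
      + n1 * ((1 - 2 / 3 * s * e0) * (1 - 2 / 3 * s * e2))
      + n2 * ((1 - 2 / 3 * s * e0) * (1 - 2 / 3 * s * e1))) =
      (1 + s) ^ 2 * (6 * (n0 * ((e1 + (1 - e1 * (1 + s)) * x) * (e2 + (1 - e2 * (1 + s)) * x))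
      + n1 * ((e0 + (1 - e0 * (1 + s)) * x) * (e2 + (1 - e2 * (1 + s)) * x))
      + n2 * ((e0 + (1 - e0 * (1 + s)) * x) * (e1 + (1 - e1 * (1 + s)) * x)))) := by
    rw [hmul e0, hmul e1, hmul e2]
    have : (1 + s / 3) ≠ 0 := by positivity
    field_simp
  rw [e1x]
  obtain ⟨G0, hG0⟩ : ∃ G, G = 1 - e0 * (1 + s) := ⟨_, rfl⟩
  obtain ⟨G1, hG1⟩ : ∃ G, G = 1 - e1 * (1 + s) := ⟨_, rfl⟩
  obtain ⟨G2, hG2⟩ : ∃ G, G = 1 - e2 * (1 + s) := ⟨_, rfl⟩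
  rw [← hG0] at g0 ⊢
  rw [← hG1] at g1 ⊢
  rw [← hG2] at g2 ⊢
  have hX0 := sub_nonneg.2 hX
  have hY0 := sub_nonneg.2 hY
  have c0 : 0 ≤ n0 * (e1 * G2 + e2 * G1) * (x0 + x1 + x2 - 3 * x) := by positivity
  have c1 : 0 ≤ n1 * (e0 * G2 + e2 * G0) * (x0 + x1 + x2 - 3 * x) := by positivity
  have c2 : 0 ≤ n2 * (e0 * G1 + e1 * G0) * (x0 + x1 + x2 - 3 * x) := by positivity
  have d0 : 0 ≤ n0 * (G1 * G2) * (x0 * x1 + x0 * x2 + x1 * x2 - 3 * x ^ 2) := by positivity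
  have d1 : 0 ≤ n1 * (G0 * G2) * (x0 * x1 + x0 * x2 + x1 * x2 - 3 * x ^ 2) := by positivity
  have d2 : 0 ≤ n2 * (G0 * G1) * (x0 * x1 + x0 * x2 + x1 * x2 - 3 * x ^ 2) := by positivity
  rw [← sub_nonneg]
  have tot : 0 ≤ (1 + s) ^ 2 * (2 * (n0 * (e1 * G2 + e2 * G1) * (x0 + x1 + x2 - 3 * x)
      + n1 * (e0 * G2 + e2 * G0) * (x0 + x1 + x2 - 3 * x)
      + n2 * (e0 * G1 + e1 * G0) * (x0 + x1 + x2 - 3 * x)
      + n0 * (G1 * G2) * (x0 * x1 + x0 * x2 + x1 * x2 - 3 * x ^ 2)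
      + n1 * (G0 * G2) * (x0 * x1 + x0 * x2 + x1 * x2 - 3 * x ^ 2)
      + n2 * (G0 * G1) * (x0 * x1 + x0 * x2 + x1 * x2 - 3 * x ^ 2))) :=
    mul_nonneg (sq_nonneg _) (by linarith)
  refine le_of_le_of_eq tot ?_
  ring

theorem pf_C_basic (h1 : AffInc.C_elem) : AffInc.C_basic := by
  intro n t s hn ht hs hs0 hs1 hsL
  have hL : 0 < ∑ i, n i := lt_of_lt_of_le hs0 hsL
  obtain ⟨a1, a2, a3, hA, -, -, -⟩ := h1 n hn hL
  have hs3 : s = t 0 + t 1 + t 2 := by rw [hs, Fin.sum_univ_three]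
  have hts : ∀ i, t i ≤ s := fun i => by
    rw [hs]; exact Finset.single_le_sum (fun j _ => ht j) (Finset.mem_univ i)
  have hes : ∀ i, 0 ≤ 1 - eps n i * (1 + s) := fun i => by
    have := (mul_le_mul_of_nonneg_left (by linarith : 1 + s ≤ 1 + ∑ k, n k) (a1 i)).trans (a2 i)
    linarith
  obtain ⟨Fn, hFn⟩ : ∃ Fn : ℝ → ℝ → ℝ → ℝ, ∀ a b c, Fn a b c =
      n 0 * ((1 + s) * (1 - eps n 1 * (s - b)) / (1 + b)
        * ((1 + s) * (1 - eps n 2 * (s - c)) / (1 + c)))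
      + n 1 * ((1 + s) * (1 - eps n 0 * (s - a)) / (1 + a)
        * ((1 + s) * (1 - eps n 2 * (s - c)) / (1 + c)))
      + n 2 * ((1 + s) * (1 - eps n 0 * (s - a)) / (1 + a)
        * ((1 + s) * (1 - eps n 1 * (s - b)) / (1 + b))) := ⟨_, fun _ _ _ => rfl⟩
  have avg := avg_ineq (n 0) (n 1) (n 2) (eps n 0) (eps n 1) (eps n 2) (t 0) (t 1) (t 2) s
    (hn 0) (hn 1) (hn 2) (a1 0) (a1 1) (a1 2) (hes 0) (hes 1) (hes 2) (ht 0) (ht 1) (ht 2)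
    hs3 hs0 Fn hFn
  obtain ⟨V, hV⟩ : ∃ V, V = ((1 + s) / (1 + s / 3)) ^ 2 *
    (1 - 2 / 3 * s * AA n + 4 / 9 * s ^ 2 * BB n) := ⟨_, rfl⟩
  rw [← hV]
  have hL3 : ∑ k, n k = n 0 + n 1 + n 2 := Fin.sum_univ_three _
  have hVL : 6 * (V * ∑ k, n k) = 6 * ((1 + s) / (1 + s / 3)) ^ 2 *
      (n 0 * ((1 - 2 / 3 * s * eps n 1) * (1 - 2 / 3 * s * eps n 2))
      + n 1 * ((1 - 2 / 3 * s * eps n 0) * (1 - 2 / 3 * s * eps n 2))
      + n 2 * ((1 - 2 / 3 * s * eps n 0) * (1 - 2 / 3 * s * eps n 1))) := by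
    have hAL : AA n * ∑ k, n k = n 0 * (eps n 1 + eps n 2) + n 1 * (eps n 0 + eps n 2)
        + n 2 * (eps n 0 + eps n 1) := by
      rw [hA, Fin.sum_univ_three]
      have e : ∀ i, (1 - n i / ∑ k, n k) * ∑ k, n k = (∑ k, n k) - n i := by
        intro i
        rw [sub_mul, one_mul, div_mul_cancel₀ _ hL.ne']
      have e' : ((1 - n 0 / ∑ k, n k) * eps n 0 + (1 - n 1 / ∑ k, n k) * eps n 1
          + (1 - n 2 / ∑ k, n k) * eps n 2) * ∑ k, n k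
          = ((1 - n 0 / ∑ k, n k) * ∑ k, n k) * eps n 0
          + ((1 - n 1 / ∑ k, n k) * ∑ k, n k) * eps n 1
          + ((1 - n 2 / ∑ k, n k) * ∑ k, n k) * eps n 2 := by ring
      rw [e', e 0, e 1, e 2, hL3]
      ring
    have hBL : BB n * ∑ k, n k = n 0 * (eps n 1 * eps n 2) + n 1 * (eps n 0 * eps n 2)
        + n 2 * (eps n 0 * eps n 1) := by
      unfold BB
      rw [div_mul_cancel₀ _ hL.ne']
    rw [hV]
    have e : 6 * (((1 + s) / (1 + s / 3)) ^ 2 *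
        (1 - 2 / 3 * s * AA n + 4 / 9 * s ^ 2 * BB n) * ∑ k, n k) =
        6 * ((1 + s) / (1 + s / 3)) ^ 2 * ((∑ k, n k) - 2 / 3 * s * (AA n * ∑ k, n k)
          + 4 / 9 * s ^ 2 * (BB n * ∑ k, n k)) := by ring
    rw [e, hAL, hBL, hL3]
    ring
  rw [← hVL] at avg
  have good : ∀ σ : Equiv.Perm (Fin 3),
      V * ∑ k, n k ≤ Fn (t (σ 0)) (t (σ 1)) (t (σ 2)) → GoodPl n s (fun i => t (σ i)) V := by
    intro σ hσ
    apply good_of_value h1 n _ s V hn (fun i => ht _) (fun i => hts _) hs0 hs1 hsL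
    rw [hFn] at hσ
    exact hσ
  by_contra hno
  push_neg at hno
  have bad : ∀ σ : Equiv.Perm (Fin 3),
      Fn (t (σ 0)) (t (σ 1)) (t (σ 2)) < V * ∑ k, n k := by
    intro σ
    by_contra h
    exact hno σ (good σ (not_lt.1 h))
  have b1 := bad 1
  have b2 := bad (Equiv.swap 1 2)
  have b3 := bad (Equiv.swap 0 1)
  have b4 := bad (Equiv.swap 0 1 * Equiv.swap 1 2)
  have b5 := bad (Equiv.swap 1 2 * Equiv.swap 0 1)
  have b6 := bad (Equiv.swap 0 2)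
  rw [show (1 : Equiv.Perm (Fin 3)) 0 = 0 by decide, show (1 : Equiv.Perm (Fin 3)) 1 = 1 by decide,
    show (1 : Equiv.Perm (Fin 3)) 2 = 2 by decide] at b1
  rw [show (Equiv.swap 1 2 : Equiv.Perm (Fin 3)) 0 = 0 by decide,
    show (Equiv.swap 1 2 : Equiv.Perm (Fin 3)) 1 = 2 by decide,
    show (Equiv.swap 1 2 : Equiv.Perm (Fin 3)) 2 = 1 by decide] at b2
  rw [show (Equiv.swap 0 1 : Equiv.Perm (Fin 3)) 0 = 1 by decide,
    show (Equiv.swap 0 1 : Equiv.Perm (Fin 3)) 1 = 0 by decide,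
    show (Equiv.swap 0 1 : Equiv.Perm (Fin 3)) 2 = 2 by decide] at b3
  rw [show (Equiv.swap 0 1 * Equiv.swap 1 2 : Equiv.Perm (Fin 3)) 0 = 1 by decide,
    show (Equiv.swap 0 1 * Equiv.swap 1 2 : Equiv.Perm (Fin 3)) 1 = 2 by decide,
    show (Equiv.swap 0 1 * Equiv.swap 1 2 : Equiv.Perm (Fin 3)) 2 = 0 by decide] at b4
  rw [show (Equiv.swap 1 2 * Equiv.swap 0 1 : Equiv.Perm (Fin 3)) 0 = 2 by decide,
    show (Equiv.swap 1 2 * Equiv.swap 0 1 : Equiv.Perm (Fin 3)) 1 = 0 by decide,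
    show (Equiv.swap 1 2 * Equiv.swap 0 1 : Equiv.Perm (Fin 3)) 2 = 1 by decide] at b5
  rw [show (Equiv.swap 0 2 : Equiv.Perm (Fin 3)) 0 = 2 by decide,
    show (Equiv.swap 0 2 : Equiv.Perm (Fin 3)) 1 = 1 by decide,
    show (Equiv.swap 0 2 : Equiv.Perm (Fin 3)) 2 = 0 by decide] at b6
  linarith

end Helper52AI
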