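import Pool.Agent.Helper72.AI.Stmts2

set_option autoImplicit false

/-! Packets C_conc, C_I2 of MP_870acd_co. -/

namespace Helper52AI

open AffInc

theorem pf_C_conc : AffInc.C_conc := by
  intro s' A B K hs' hs6 hA hB hBA hK0 hK1 hyp s hs hss
  norm_num at hs6
  have hden' : (0:ℝ) < 1 + s' / 3 := by positivity
  have hden : (0:ℝ) < 1 + s / 3 := by positivity
  -- the value at s'
  have h1 : K * (1 + 0.654) * (1 + 0.654 / 1000) * (1 + s' / 3) ^ 2 ≤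
      (1 + s') ^ 2 * (1 - 2 / 3 * s' * A + 4 / 9 * s' ^ 2 * B) := by
    have h2 := mul_le_mul_of_nonneg_right hyp (by positivity : (0:ℝ) ≤ (1 + s' / 3) ^ 2)
    have h3 : ((1 + s') / (1 + s' / 3)) ^ 2 * (1 - 2 / 3 * s' * A + 4 / 9 * s' ^ 2 * B)
        * (1 + s' / 3) ^ 2 = (1 + s') ^ 2 * (1 - 2 / 3 * s' * A + 4 / 9 * s' ^ 2 * B) := by
      field_simp
    rw [h3] at h2
    exact h2
  have h4 : (1 + s') * (1 + s' / 1000) ≤ (1 + 0.654) * (1 + 0.654 / 1000) := by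
    norm_num
    nlinarith
  have h5 : K * ((1 + s') * (1 + s' / 1000)) * (1 + s' / 3) ^ 2 ≤
      (1 + s') ^ 2 * (1 - 2 / 3 * s' * A + 4 / 9 * s' ^ 2 * B) := by
    refine le_trans ?_ h1
    have := mul_le_mul_of_nonneg_left h4 hK0
    have := mul_le_mul_of_nonneg_right this (by positivity : (0:ℝ) ≤ (1 + s' / 3) ^ 2)
    linarith
  have h6 : 0 ≤ (1 + s') * (1 - 2 / 3 * s' * A + 4 / 9 * s' ^ 2 * B)
      - K * (1 + s' / 3) ^ 2 * (1 + s' / 1000) := by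
    have h7 : 0 ≤ (1 + s') * ((1 + s') * (1 - 2 / 3 * s' * A + 4 / 9 * s' ^ 2 * B)
      - K * (1 + s' / 3) ^ 2 * (1 + s' / 1000)) := by linarith
    exact nonneg_of_mul_nonneg_right h7 (by linarith)
  have h8 : 0 ≤ (1 + s) * (1 - 2 / 3 * s * A + 4 / 9 * s ^ 2 * B)
      - K * (1 + s / 3) ^ 2 * (1 + s / 1000) := by
    have h9 : s' * ((1 + s) * (1 - 2 / 3 * s * A + 4 / 9 * s ^ 2 * B)
        - K * (1 + s / 3) ^ 2 * (1 + s / 1000))
        = (s' - s) * (1 - K) + s * ((1 + s') * (1 - 2 / 3 * s' * A + 4 / 9 * s' ^ 2 * B)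
        - K * (1 + s' / 3) ^ 2 * (1 + s' / 1000))
        + s' * (s * (s' - s) * (2 / 3 * A - 4 / 9 * B * (1 + s + s')
          + K * (1 / 9 + 1 / 1500 + (s + s') / 9000))) := by ring
    have h10 : 0 ≤ 2 / 3 * A - 4 / 9 * B * (1 + s + s') := by nlinarith
    have h11 : 0 ≤ K * (1 / 9 + 1 / 1500 + (s + s') / 9000) := by positivity
    have h12 : 0 ≤ s' * (s * (s' - s) * (2 / 3 * A - 4 / 9 * B * (1 + s + s')
          + K * (1 / 9 + 1 / 1500 + (s + s') / 9000))) := by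
      apply mul_nonneg hs'.le
      apply mul_nonneg
      · exact mul_nonneg hs.le (by linarith)
      · linarith
    have h13 : 0 ≤ (s' - s) * (1 - K) := mul_nonneg (by linarith) (by linarith)
    have h14 : 0 ≤ s * ((1 + s') * (1 - 2 / 3 * s' * A + 4 / 9 * s' ^ 2 * B)
        - K * (1 + s' / 3) ^ 2 * (1 + s' / 1000)) := mul_nonneg hs.le h6
    have h15 : 0 ≤ s' * ((1 + s) * (1 - 2 / 3 * s * A + 4 / 9 * s ^ 2 * B)
        - K * (1 + s / 3) ^ 2 * (1 + s / 1000)) := by rw [h9]; linarith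
    exact nonneg_of_mul_nonneg_right h15 hs'
  have h16 : ((1 + s) / (1 + s / 3)) ^ 2 * (1 - 2 / 3 * s * A + 4 / 9 * s ^ 2 * B)
      - K * (1 + s) * (1 + s / 1000) = (1 + s) / (1 + s / 3) ^ 2 *
      ((1 + s) * (1 - 2 / 3 * s * A + 4 / 9 * s ^ 2 * B)
      - K * (1 + s / 3) ^ 2 * (1 + s / 1000)) := by
    field_simp
  have h17 : 0 ≤ (1 + s) / (1 + s / 3) ^ 2 *
      ((1 + s) * (1 - 2 / 3 * s * A + 4 / 9 * s ^ 2 * B)
      - K * (1 + s / 3) ^ 2 * (1 + s / 1000)) := mul_nonneg (by positivity) h8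
  linarith

theorem pf_C_I2 : AffInc.C_I2 := by
  intro t0 t1 t2 s K A h2 h21 h10 hs hs0 hs1 hK0 hK1 hA
  norm_num at hs1 hK0 hA
  have ht1 : 0 ≤ t1 := h2.trans h21
  have ht0 : 0 ≤ t0 := ht1.trans h10
  obtain ⟨M, hM⟩ : ∃ M, M = t0 ^ 2 - t2 ^ 2 := ⟨_, rfl⟩
  obtain ⟨e2, he2⟩ : ∃ e2, e2 = t0 * t1 + t0 * t2 + t1 * t2 := ⟨_, rfl⟩
  obtain ⟨e3, he3⟩ : ∃ e3, e3 = t0 * t1 * t2 := ⟨_, rfl⟩
  have hM0 : 0 ≤ M := by rw [hM]; nlinarith
  have he20 : 0 ≤ e2 := by rw [he2]; positivity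
  have he30 : 0 ≤ e3 := by rw [he3]; positivity
  have h1 : 2 * e2 ≤ s ^ 2 - M := by rw [he2, hs, hM]; nlinarith [sq_nonneg t1, sq_nonneg t2]
  have h9 : 9 * e3 ≤ s * e2 := by
    rw [he2, he3, hs]
    nlinarith [mul_nonneg ht0 (sq_nonneg (t1 - t2)), mul_nonneg ht1 (sq_nonneg (t0 - t2)),
      mul_nonneg h2 (sq_nonneg (t0 - t1))]
  have hse : s * e2 ≤ 327 / 500 * e2 := mul_le_mul_of_nonneg_right hs1 he20
  have hsM : s * M ≤ 327 / 500 * M := mul_le_mul_of_nonneg_right hs1 hM0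
  have hs2 : s ^ 2 ≤ 327 / 500 * s := by nlinarith
  have hP : (1 + t0) * (1 + t1) * (1 + t2) = 1 + s + e2 + e3 := by rw [he2, he3, hs]; ring
  have hse23 : s * (e2 + e3) ≤ 327 / 500 * (e2 + e3) :=
    mul_le_mul_of_nonneg_right hs1 (by linarith)
  -- K = 1
  have E1 : 0 ≤ (1 + s) * (3 + s - 0.2761 * (2 * s + M)) - 3 * (1 + s + e2 + e3) * (1 + s / 1000) := by
    have q : 0 ≤ 1.1249 * s ^ 2 - 0.45668 * M - 3.2202 * e2 := by
      have hx : t2 = t2 := rfl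
      obtain ⟨y, hy⟩ : ∃ y, y = t1 - t2 := ⟨_, rfl⟩
      obtain ⟨z, hz⟩ : ∃ z, z = t0 - t1 := ⟨_, rfl⟩
      have hy0 : 0 ≤ y := by rw [hy]; linarith
      have hz0 : 0 ≤ z := by rw [hz]; linarith
      have e1 : t1 = t2 + y := by rw [hy]; ring
      have e0 : t0 = t2 + y + z := by rw [hz, hy]; ring
      rw [hM, he2, hs, e0, e1]
      norm_num
      nlinarith [mul_nonneg hy0 hz0, sq_nonneg (t2 - y), sq_nonneg (t2 - z), sq_nonneg (2 * t2 - z),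
        sq_nonneg (t2 - 2 * y), sq_nonneg y, sq_nonneg z, sq_nonneg t2]
    norm_num at q ⊢
    nlinarith
  -- K = 0.67
  have E2 : 0 ≤ (1 + s) * (3 + s - 0.9361 * (2 * s + M)) - 2.01 * (1 + s + e2 + e3) * (1 + s / 1000) := by
    norm_num
    nlinarith
  -- general K
  have E3 : 0 ≤ (1 + s) * (3 + s - (2.2761 - 2 * K) * (2 * s + M))
      - 3 * K * (1 + s + e2 + e3) * (1 + s / 1000) := by
    have h := add_nonneg (mul_nonneg (by linarith : 0 ≤ K - 67 / 100) E1)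
      (mul_nonneg (by linarith : 0 ≤ 1 - K) E2)
    have e : (1 + s) * (3 + s - (2.2761 - 2 * K) * (2 * s + M))
      - 3 * K * (1 + s + e2 + e3) * (1 + s / 1000) = ((K - 67 / 100) * ((1 + s) * (3 + s - 0.2761 * (2 * s + M)) - 3 * (1 + s + e2 + e3) * (1 + s / 1000)) + (1 - K) * ((1 + s) * (3 + s - 0.9361 * (2 * s + M)) - 2.01 * (1 + s + e2 + e3) * (1 + s / 1000))) / 0.33 := by
      norm_num
      ring
    rw [e]
    exact div_nonneg h (by norm_num)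
  have E4 : 3 * K * (1 + s + e2 + e3) * (1 + s / 1000) ≤ (1 + s) * (3 + s - A * (2 * s + M)) := by
    have h3 : A * (2 * s + M) ≤ (2.2761 - 2 * K) * (2 * s + M) := by
      apply mul_le_mul_of_nonneg_right _ (by linarith)
      norm_num
      linarith
    have h4 := mul_le_mul_of_nonneg_left h3 (by linarith : 0 ≤ 1 + s)
    linarith
  have hPpos : 0 < 1 + s + e2 + e3 := by linarith
  rw [hP, show 2 * s + t0 ^ 2 - t2 ^ 2 = 2 * s + M by rw [hM]; ring, div_mul_eq_mul_div,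
    le_div_iff₀ (by linarith)]
  have h5 := mul_le_mul_of_nonneg_left E4 (by linarith : 0 ≤ 1 + s)
  linarith

end Helper52AI
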