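import Pool.Agent.Helper72.AI.Stmts2

set_option autoImplicit false

/-! Packets C_elem, C_scale, C_L, C_Q, C_kap of MP_870acd_co. -/

namespace Helper52AI

open AffInc

lemma psi_eq (L v : ℝ) (hL : 0 < L) (hv : 0 ≤ v) (hvL : v ≤ L) :
    psi L v = (1 - v / L) * max ((1 - v) / (1 + L - v)) 0 := by
  have h1 : (0:ℝ) ≤ 1 - v / L := by
    rw [sub_nonneg, div_le_one hL]; exact hvL
  have h2 : (0:ℝ) < 1 + L - v := by linarith
  unfold psi
  rw [mul_max_of_nonneg _ _ h1, mul_zero]
  congr 1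
  field_simp
  ring

theorem pf_C_elem : AffInc.C_elem := by
  intro n hn hL
  set L := ∑ i, n i with hLdef
  have hL3 : L = n 0 + n 1 + n 2 := by rw [hLdef, Fin.sum_univ_three]
  have hle : ∀ i, n i ≤ L := fun i => by
    rw [hLdef]; exact Finset.single_le_sum (fun j _ => hn j) (Finset.mem_univ i)
  have hN : ∀ i, (0:ℝ) < 1 + L - n i := fun i => by linarith [hle i]
  have he0 : ∀ i, 0 ≤ eps n i := fun i => le_max_right _ _
  have hA : AA n = ∑ i, (1 - n i / L) * eps n i := by
    unfold AA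
    apply Finset.sum_congr rfl
    intro i _
    exact psi_eq L (n i) hL (hn i) (hle i)
  have hc : n 0 / L + n 1 / L + n 2 / L = 1 := by
    rw [← add_div, ← add_div, ← hL3, div_self hL.ne']
  have hc0 : ∀ i, 0 ≤ n i / L := fun i => div_nonneg (hn i) hL.le
  have hB : BB n = n 0 / L * (eps n 1 * eps n 2) + n 1 / L * (eps n 0 * eps n 2)
      + n 2 / L * (eps n 0 * eps n 1) := by
    unfold BB
    rw [← hLdef]
    ring
  have hA3 : AA n = n 0 / L * (eps n 1 + eps n 2) + n 1 / L * (eps n 0 + eps n 2)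
      + n 2 / L * (eps n 0 + eps n 1) := by
    rw [hA, Fin.sum_univ_three]
    have h0 : 1 - n 0 / L = n 1 / L + n 2 / L := by linarith
    have h1 : 1 - n 1 / L = n 0 / L + n 2 / L := by linarith
    have h2 : 1 - n 2 / L = n 0 / L + n 1 / L := by linarith
    rw [h0, h1, h2]
    ring
  refine ⟨he0, ?_, ?_, hA, ?_, ?_, ?_⟩
  · intro i
    have h1 : (0:ℝ) < 1 + L := by linarith
    unfold eps
    rw [← hLdef]
    rcases le_total ((1 - n i) / (1 + L - n i)) 0 with h | h
    · rw [max_eq_right h]; linarith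
    · rw [max_eq_left h, div_mul_eq_mul_div, div_le_one (hN i)]
      nlinarith [mul_nonneg (hn i) hL.le]
  · intro i
    have h1 : (1 - n i) / (1 + L - n i) ≤ eps n i := le_max_left _ _
    calc 1 - n i = (1 - n i) / (1 + L - n i) * (1 + L - n i) := by
          rw [div_mul_cancel₀ _ (hN i).ne']
      _ ≤ eps n i * (1 + L - n i) := mul_le_mul_of_nonneg_right h1 (hN i).le
  · rw [hA3]
    have := hc0 0; have := hc0 1; have := hc0 2
    have := he0 0; have := he0 1; have := he0 2
    positivity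
  · rw [hB]
    have := hc0 0; have := hc0 1; have := hc0 2
    have := he0 0; have := he0 1; have := he0 2
    positivity
  · intro e he
    have k0 := mul_nonneg (hc0 0) (mul_nonneg (sub_nonneg.2 (he 1)) (sub_nonneg.2 (he 2)))
    have k1 := mul_nonneg (hc0 1) (mul_nonneg (sub_nonneg.2 (he 0)) (sub_nonneg.2 (he 2)))
    have k2 := mul_nonneg (hc0 2) (mul_nonneg (sub_nonneg.2 (he 0)) (sub_nonneg.2 (he 1)))
    constructor
    · have h1 : BB n - (e * AA n - e ^ 2) = n 0 / L * ((e - eps n 1) * (e - eps n 2))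
          + n 1 / L * ((e - eps n 0) * (e - eps n 2)) + n 2 / L * ((e - eps n 0) * (e - eps n 1))
          + e ^ 2 * (1 - (n 0 / L + n 1 / L + n 2 / L)) := by
        rw [hA3, hB]; ring
      rw [hc] at h1
      linarith
    · have h1 : e * AA n - 2 * BB n = n 0 / L * (eps n 1 * (e - eps n 2) + eps n 2 * (e - eps n 1))
          + n 1 / L * (eps n 0 * (e - eps n 2) + eps n 2 * (e - eps n 0))
          + n 2 / L * (eps n 0 * (e - eps n 1) + eps n 1 * (e - eps n 0)) := by
        rw [hA3, hB]; ring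
      have j01 := mul_nonneg (he0 0) (sub_nonneg.2 (he 1))
      have j02 := mul_nonneg (he0 0) (sub_nonneg.2 (he 2))
      have j10 := mul_nonneg (he0 1) (sub_nonneg.2 (he 0))
      have j12 := mul_nonneg (he0 1) (sub_nonneg.2 (he 2))
      have j20 := mul_nonneg (he0 2) (sub_nonneg.2 (he 0))
      have j21 := mul_nonneg (he0 2) (sub_nonneg.2 (he 1))
      have i0 := mul_nonneg (hc0 0) (add_nonneg j12 j21)
      have i1 := mul_nonneg (hc0 1) (add_nonneg j02 j20)
      have i2 := mul_nonneg (hc0 2) (add_nonneg j01 j10)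
      linarith

theorem pf_C_scale : AffInc.C_scale := by
  rintro n s s' V w hs' hs hw ⟨r, φ, h1, h2, h3, h4, h5, h6⟩
  refine ⟨r, φ, ?_, h2, h3, h4, h5, h6⟩
  intro i
  refine ⟨(h1 i).1, (h1 i).2.trans ?_⟩
  have hs0 : 0 < s := lt_of_lt_of_le hs' hs
  have e1 : s' - s' / s * w i = s' / s * (s - w i) := by
    field_simp
  show (s' - s' / s * w i) / (1 + s') ≤ (s - w i) / (1 + s)
  rw [e1, div_le_div_iff₀ (by linarith) (by linarith)]
  have e2 : s' / s * (1 + s) ≤ 1 + s' := by
    rw [div_mul_eq_mul_div, div_le_iff₀ hs0]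
    nlinarith
  have e3 : 0 ≤ s - w i := sub_nonneg.2 (hw i)
  calc s' / s * (s - w i) * (1 + s) = (s - w i) * (s' / s * (1 + s)) := by ring
    _ ≤ (s - w i) * (1 + s') := mul_le_mul_of_nonneg_left e2 e3

theorem pf_C_L : AffInc.C_L := by
  intro n hn hQ
  by_contra hlt
  push_neg at hlt
  have key : ∀ v : ℝ, 0 ≤ v → 144 / 169 - 1728 / 2197 * (v - 1 / 6) ≤ 4 / (2 + v) ^ 2 := by
    intro v hv
    rw [le_div_iff₀ (by positivity)]
    nlinarith [mul_nonneg hv (sq_nonneg (v - 1 / 6)), sq_nonneg (v - 1 / 6)]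
  have h0 := key (n 0) (hn 0)
  have h1 := key (n 1) (hn 1)
  have h2 := key (n 2) (hn 2)
  unfold QQ at hQ
  rw [Fin.sum_univ_three] at hQ hlt
  norm_num at *
  linarith

theorem pf_C_Q : AffInc.C_Q := by
  intro n hn hL
  set L := ∑ i, n i with hLdef
  have hL3 : L = n 0 + n 1 + n 2 := by rw [hLdef, Fin.sum_univ_three]
  have hle : ∀ i, n i ≤ L := fun i => by
    rw [hLdef]; exact Finset.single_le_sum (fun j _ => hn j) (Finset.mem_univ i)
  have hL0 : 0 < L := by norm_num at hL; linarith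
  have key : ∀ v : ℝ, 0 ≤ v → v ≤ L → v * ((4 + L) / (2 + L) ^ 2) ≤ 1 - 4 / (2 + v) ^ 2 := by
    intro v hv hvL
    have e1 : 1 - 4 / (2 + v) ^ 2 = v * ((4 + v) / (2 + v) ^ 2) := by
      field_simp
      ring
    rw [e1]
    apply mul_le_mul_of_nonneg_left _ hv
    rw [div_le_div_iff₀ (by positivity) (by positivity)]
    nlinarith [mul_nonneg (sub_nonneg.2 hvL)
      (by positivity : 0 ≤ 12 + 4 * (L + v) + v * L)]
  have h0 := key (n 0) (hn 0) (hle 0)
  have h1 := key (n 1) (hn 1) (hle 1)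
  have h2 := key (n 2) (hn 2) (hle 2)
  have h3 : (n 0 + n 1 + n 2) * ((4 + L) / (2 + L) ^ 2) = 1 - 4 / (2 + L) ^ 2 := by
    rw [← hL3]
    field_simp
    ring
  have h4 : 4 / (2 + L) ^ 2 ≤ 4 / 3.3 ^ 2 := by
    apply div_le_div_of_nonneg_left (by norm_num) (by norm_num)
    apply pow_le_pow_left₀ (by norm_num)
    norm_num at hL ⊢
    linarith
  unfold QQ
  rw [Fin.sum_univ_three]
  norm_num at h4 ⊢
  linarith

theorem pf_C_kap : AffInc.C_kap := by
  have p1 := Real.pi_gt_d6
  have p2 := Real.pi_lt_d6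
  have s1 : (1.7320508 : ℝ) < Real.sqrt 3 := by
    apply Real.lt_sqrt_of_sq_lt
    norm_num
  have s2 : Real.sqrt 3 < (1.7320509 : ℝ) := by
    rw [Real.sqrt_lt' (by norm_num)]
    norm_num
  have hpi : 0 < 4 * Real.pi := by positivity
  have k1 : 0.41349 < kap := by
    unfold kap
    rw [lt_div_iff₀ hpi]
    norm_num at *
    linarith
  have k2 : kap < 0.4135 := by
    unfold kap
    rw [div_lt_iff₀ hpi]
    norm_num at *
    linarith
  refine ⟨k1, k2, ?_, ?_⟩
  · norm_num at *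
    linarith
  · norm_num at *
    linarith

end Helper52AI
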