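import Pool.Agent.Helper72.AI.Stmts2

set_option autoImplicit false

/-! Packet S_core of MP_870acd_co. -/

namespace Helper52AI

open AffInc

lemma GoodPl.mono {n : Fin 3 → ℝ} {s : ℝ} {w : Fin 3 → ℝ} {V V' : ℝ} (h : GoodPl n s w V)
    (hV : V' ≤ V) (hL : 0 ≤ ∑ k, n k) : GoodPl n s w V' := by
  obtain ⟨r, φ, h1, h2, h3, h4, h5, h6⟩ := h
  exact ⟨r, φ, h1, h2, h3, h4, h5, (mul_le_mul_of_nonneg_right hV hL).trans h6⟩

/-- the two small cases of `L`, with threshold `s'` -/
lemma core_basic (h2 : AffInc.C_scale) (h3 : AffInc.C_basic) (h11 : AffInc.C_conc)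
    (n t : Fin 3 → ℝ) (s K s' : ℝ) (hn : ∀ i, 0 ≤ n i) (ht : ∀ i, 0 ≤ t i)
    (hs : s = ∑ i, t i) (hs0 : 0 < s) (hs1 : s ≤ 0.654) (hK0 : 0 ≤ K) (hK1 : K ≤ 1)
    (hs'0 : 0 < s') (hs'6 : s' ≤ 0.6) (hs'L : s' ≤ ∑ i, n i)
    (hA : 0 ≤ AA n) (hB : 0 ≤ BB n) (hAB : 2 * BB n ≤ 2 / 3 * AA n)
    (hval : K * (1 + 0.654) * (1 + 0.654 / 1000) ≤
      ((1 + s') / (1 + s' / 3)) ^ 2 * (1 - 2 / 3 * s' * AA n + 4 / 9 * s' ^ 2 * BB n)) :
    ∃ σ : Equiv.Perm (Fin 3), GoodPl n s (fun i => t (σ i)) (K * (1 + s) * (1 + s / 1000)) := by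
  have hL0 : 0 ≤ ∑ k, n k := hs'0.le.trans hs'L
  rcases le_or_gt s s' with h | h
  · obtain ⟨σ, hσ⟩ := h3 n t s hn ht hs hs0 (by norm_num at hs1; linarith) (h.trans hs'L)
    exact ⟨σ, GoodPl.mono hσ (h11 s' (AA n) (BB n) K hs'0 hs'6 hA hB hAB hK0 hK1 hval s hs0 h) hL0⟩
  · have hr : 0 ≤ s' / s := by positivity
    have hsum : s' = ∑ i, (s' / s) * t i := by
      rw [← Finset.mul_sum, ← hs, div_mul_cancel₀ _ hs0.ne']
    obtain ⟨σ, hσ⟩ := h3 n (fun i => (s' / s) * t i) s' hn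
      (fun i => mul_nonneg hr (ht i)) hsum hs'0 (by norm_num at hs'6; linarith) hs'L
    refine ⟨σ, h2 n s s' _ _ hs'0 h.le ?_ (GoodPl.mono hσ ?_ hL0)⟩
    · intro i
      rw [hs]; exact Finset.single_le_sum (fun j _ => ht j) (Finset.mem_univ _)
    · refine le_trans ?_ hval
      norm_num at hs1
      have h4 : (1 + s) * (1 + s / 1000) ≤ (1 + 0.654) * (1 + 0.654 / 1000) := by
        norm_num
        nlinarith
      have := mul_le_mul_of_nonneg_left h4 hK0
      linarith

theorem pf_S_core (h1 : AffInc.C_elem) (h2 : AffInc.C_scale) (h3 : AffInc.C_basic)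
    (h4 : AffInc.C_mode3) (h5 : AffInc.C_L) (h6 : AffInc.C_Q) (h7 : AffInc.C_UA0)
    (h8 : AffInc.C_UA) (h9 : AffInc.C_UB) (h10 : AffInc.C_I2) (h11 : AffInc.C_conc)
    (h12 : AffInc.C_kap) : AffInc.S_core := by
  intro n t s K hn ht hL hs hs0 hs1 hK hK1
  obtain ⟨k1, k2, k3, k4⟩ := h12
  have hKQ : K = kap * QQ n := hK
  have hts : ∀ i, t i ≤ s := fun i => by
    rw [hs]; exact Finset.single_le_sum (fun j _ => ht j) (Finset.mem_univ i)
  have hs1' := hs1
  norm_num at hs1'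
  rcases le_or_gt (K * (1 + s) * (1 + s / 1000)) 1 with hV | hV
  · refine ⟨1, fun _ => 0, fun _ => 1, ?_, ?_, ?_, ?_, ?_, ?_⟩
    · intro i
      refine ⟨le_refl _, div_nonneg ?_ (by linarith)⟩
      show 0 ≤ s - t ((1 : Equiv.Perm (Fin 3)) i)
      linarith [hts ((1 : Equiv.Perm (Fin 3)) i)]
    · intro i j _; norm_num
    · intro i; norm_num
    · intro i j _; norm_num
    · intro i j _
      show (1 - n j) * 1 ≤ 1 + ∑ k, n k - n j
      linarith
    · show K * (1 + s) * (1 + s / 1000) * ∑ k, n k ≤ n 0 * (1 * 1) + n 1 * (1 * 1) + n 2 * (1 * 1)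
      have e : ∑ k, n k = n 0 + n 1 + n 2 := Fin.sum_univ_three _
      have := mul_le_mul_of_nonneg_right hV hL.le
      linarith
  · -- K is large
    have hb : (1 + s) * (1 + s / 1000) ≤ 1.6551 := by
      norm_num
      nlinarith
    have hb0 : 0 < (1 + s) * (1 + s / 1000) := by positivity
    have hKpos : 0 < K := by
      by_contra h
      have : K * ((1 + s) * (1 + s / 1000)) ≤ 0 := mul_nonpos_of_nonpos_of_nonneg (not_lt.1 h) hb0.le
      linarith
    have hK6 : 0.604 < K := by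
      have h13 : K * ((1 + s) * (1 + s / 1000)) ≤ K * 1.6551 := mul_le_mul_of_nonneg_left hb hKpos.le
      norm_num at h13 ⊢
      linarith
    have hkpos : 0 < kap := by norm_num at k1; linarith
    have hQpos : 0 < QQ n := by
      rw [hKQ] at hKpos
      exact (mul_pos_iff_of_pos_left hkpos).1 hKpos
    have hQ1 : 1.45 ≤ QQ n := by
      have h14 : kap * QQ n ≤ 0.4135 * QQ n := mul_le_mul_of_nonneg_right k2.le hQpos.le
      rw [← hKQ] at h14
      norm_num at h14 hK6 ⊢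
      linarith
    have hQ2 : QQ n ≤ 2.4185 := by
      by_contra h
      rw [not_le] at h
      have h15 : 2.4185 * kap < QQ n * kap := mul_lt_mul_of_pos_right h hkpos
      have : K = QQ n * kap := by rw [hKQ, mul_comm]
      linarith
    have hL5 : 0.5 ≤ ∑ i, n i := h5 n hn hQ1
    obtain ⟨a1, a2, -, -, a5, a6, a7⟩ := h1 n hn hL
    obtain ⟨L, hLe⟩ : ∃ L, L = ∑ i, n i := ⟨_, rfl⟩
    rw [← hLe] at hL hL5 a2
    have hL1 : 0 < 1 + L := by linarith
    obtain ⟨e, he⟩ : ∃ e, e = 1 / (1 + L) := ⟨_, rfl⟩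
    have heps : ∀ i, eps n i ≤ e := by
      intro i
      rw [he, le_div_iff₀ hL1]
      exact a2 i
    have he0 : 0 < e := by rw [he]; positivity
    have he23 : e ≤ 2 / 3 := by
      rw [he, div_le_div_iff₀ hL1 (by norm_num)]
      norm_num at hL5
      linarith
    obtain ⟨b1, b2⟩ := a7 e heps
    have hAB : 2 * BB n ≤ 2 / 3 * AA n := b2.trans (mul_le_mul_of_nonneg_right he23 a5)
    have hK54 : K * (1 + 0.654) * (1 + 0.654 / 1000) ≤ 0.684377 * QQ n := by
      have h14 : kap * QQ n ≤ 0.4135 * QQ n := mul_le_mul_of_nonneg_right k2.le hQpos.le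
      rw [← hKQ] at h14
      norm_num at h14 ⊢
      linarith
    rcases le_or_gt L 0.6 with hL6 | hL6
    · -- case (i)
      refine core_basic h2 h3 h11 n t s K 0.5 hn ht hs hs0 hs1 hKpos.le hK1 (by norm_num)
        (by norm_num) (by rw [← hLe]; exact hL5) a5 a6 hAB (hK54.trans ?_)
      have c := h7 n L hn hLe hL5 hL6
      have e1 : 1 / (9 * (1 + L)) = e / 9 := by rw [he]; field_simp
      have e2 : 1 / (9 * (1 + L) ^ 2) = e ^ 2 / 9 := by rw [he]; field_simp
      rw [e1, e2] at c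
      norm_num at c b1 ⊢
      linarith
    · rcases le_or_gt L 1.3 with hL13 | hL13
      · -- case (ii)
        refine core_basic h2 h3 h11 n t s K 0.6 hn ht hs hs0 hs1 hKpos.le hK1 (by norm_num)
          (by norm_num) (by rw [← hLe]; exact hL6.le) a5 a6 hAB (hK54.trans ?_)
        have c := h8 n L hn hLe hL6.le hL13
        have e1 : 0.16 / (1 + L) = 0.16 * e := by rw [he]; ring
        have e2 : 0.16 / (1 + L) ^ 2 = 0.16 * e ^ 2 := by rw [he, div_pow, one_pow, mul_one_div]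
        rw [e1, e2] at c
        norm_num at c b1 ⊢
        linarith
      · -- case (iii)
        have hQ3 : 1.632 ≤ QQ n := h6 n hn (by rw [← hLe]; exact hL13.le)
        have hK67 : 0.67 ≤ K := by
          have h16 : 0.41349 * QQ n ≤ kap * QQ n := mul_le_mul_of_nonneg_right k1.le hQpos.le
          rw [← hKQ] at h16
          norm_num at h16 hQ3 ⊢
          linarith
        have hA2 : AA n ≤ 0.2761 + 2 * (1 - K) := by
          have c := h9 n hn (by rw [← hLe]; exact hL13.le) hQ2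
          have h14 : kap * QQ n ≤ 0.4135 * QQ n := mul_le_mul_of_nonneg_right k2.le hQpos.le
          rw [← hKQ] at h14
          norm_num at c h14 ⊢
          linarith
        -- sort t
        obtain ⟨τ, hτ1, hτ2⟩ : ∃ τ : Equiv.Perm (Fin 3), t (τ 1) ≤ t (τ 0) ∧ t (τ 2) ≤ t (τ 1) := by
          refine ⟨Tuple.sort (fun i => - t i), ?_, ?_⟩
          · have := Tuple.monotone_sort (fun i => - t i) (show (0 : Fin 3) ≤ 1 by decide)
            simp only [Function.comp] at this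
            linarith
          · have := Tuple.monotone_sort (fun i => - t i) (show (1 : Fin 3) ≤ 2 by decide)
            simp only [Function.comp] at this
            linarith
        have hsum : s = ∑ i, t (τ i) := by
          rw [hs]
          exact (Equiv.sum_comp τ t).symm
        obtain ⟨σ, hσ⟩ := h4 n (fun i => t (τ i)) s hn (ht _) hτ2 hτ1 hsum hs0 (by linarith)
          (by rw [← hLe]; norm_num at hL13; linarith)
        refine ⟨τ * σ, GoodPl.mono (V := _) hσ ?_ (by rw [← hLe]; exact hL.le)⟩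
        have hsum3 : s = t (τ 0) + t (τ 1) + t (τ 2) := by
          rw [hsum, Fin.sum_univ_three]
        exact h10 (t (τ 0)) (t (τ 1)) (t (τ 2)) s K (AA n) (ht _) hτ2 hτ1 hsum3 hs0 hs1 hK67 hK1 hA2

end Helper52AI
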